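import Pool.Agent.W498.Dom.Main

/-!
# Linear algebra of the restriction to a fibre
-/

set_option autoImplicit false

open Finset Polynomial

namespace Pool.Agent.J4H12.Fib

open Pool.Agent.H914 Pool.Agent.H447 Pool.Agent.W498.Dom

variable {K : Type*} [Field K] [CharZero K] {V : Type*} [AddCommGroup V] [Module K V]
  {U : Type*} [AddCommGroup U] [Module K U]

lemma proj_scal {P : ℕ → Submodule K V} (iP : DirectSum.IsInternal P) (f : ℕ → K) (p : ℕ)
    (v : V) : proj iP p (scal iP f v) = f p • proj iP p v := by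
  refine gr_induction iP (p := fun v => proj iP p (scal iP f v) = f p • proj iP p v) ?_ ?_ v
  · intro i a ha
    rw [scal_apply iP _ ha, map_smul]
    by_cases hi : i = p
    · subst hi; rfl
    · rw [proj_ne iP ha hi, smul_zero, smul_zero]
  · intro a b ha hb
    rw [map_add, map_add, map_add, ha, hb, smul_add]

/-- The two maps relating the total space and a fibre. -/
structure FibreMaps (gr : ℕ → Submodule K V) (grU : ℕ → Submodule K U) (n : ℕ)
    (h : Module.End K V) (a : U →ₗ[K] V) (b : V →ₗ[K] U) : Prop where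
  iU : DirectSum.IsInternal grU
  bgr : ∀ i, ∀ v ∈ gr i, b v ∈ grU i
  agr : ∀ i, ∀ x ∈ grU i, a x ∈ gr (i + 2 * n)
  hn : h ^ (n + 1) = 0
  ker : ∀ v, (h ^ n) v = 0 → b v = 0
  ab : ∀ v, ∃ w, a (b v) = (h ^ n) w ∧ b w = b v

namespace FibreMaps

variable {gr P : ℕ → Submodule K V} {grU : ℕ → Submodule K U} {n m : ℕ} {h e : Module.End K V}
  {a : U →ₗ[K] V} {b : V →ₗ[K] U} (S : Setup gr P m h e) (M : FibreMaps gr grU n h a b)

lemma pow_zero_of_lt (M : FibreMaps gr grU n h a b) {c : ℕ} (hc : n < c) (v : V) :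
    (h ^ c) v = 0 := by
  rw [show c = (c - (n + 1)) + (n + 1) by omega, pow_add, Module.End.mul_apply, M.hn,
    LinearMap.zero_apply, map_zero]

include S M

lemma hn_proj {j p : ℕ} {v : V} (hv : v ∈ gr j) (hp : p ≠ j + n) :
    (h ^ n) (proj S.iP p v) = 0 := by
  have hw : proj S.iP p v ∈ P p ⊓ gr j := ⟨proj_mem _ _ _, S.projP_gr hv p⟩
  rcases lt_or_gt_of_ne hp with hlt | hgt
  · have h1 : (h ^ n) (proj S.iP p v) ∈ P p ⊓ gr (j + 2 * n) := by
      refine ⟨?_, pow_L_mem S.hgr hw.2 n⟩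
      rw [S.pow_h_projP]
      exact proj_mem _ _ _
    by_cases h2 : 2 * p < j + 2 * n
    · rw [S.van p _ h2] at h1
      exact (Submodule.mem_bot _).1 h1
    · obtain ⟨w, hw, hw'⟩ := (S.hl p (2 * p - (j + 2 * n)) (by omega)).2 _ (by
        rw [show 2 * p - (2 * p - (j + 2 * n)) = j + 2 * n by omega]
        exact h1)
      rw [← hw']
      exact M.pow_zero_of_lt (by omega) w
  · by_cases hjp : j ≤ p
    · rw [(S.hl p j hjp).1 _ hw (M.pow_zero_of_lt (by omega) _), map_zero]
    · omega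

lemma b_proj {j p : ℕ} {v : V} (hv : v ∈ gr j) (hp : p ≠ j + n) : b (proj S.iP p v) = 0 :=
  M.ker _ (M.hn_proj S hv hp)

lemma b_comp {j : ℕ} {v : V} (hv : v ∈ gr j) : b (proj S.iP (j + n) v) = b v := by
  conv_rhs => rw [S.sumP v, map_sum]
  by_cases hj : j + n < 2 * m + 1
  · rw [Finset.sum_eq_single (j + n)]
    · intro p _ hp
      exact M.b_proj S hv hp
    · intro h'; exact absurd (Finset.mem_range.2 hj) h'
  · rw [Finset.sum_eq_zero]
    · have h1 := proj_mem S.iP (j + n) v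
      rw [S.bP _ (by omega)] at h1
      rw [(Submodule.mem_bot _).1 h1, map_zero]
    · intro p hp
      have := Finset.mem_range.1 hp
      exact M.b_proj S hv (by omega)

lemma b_scal {j : ℕ} {v : V} (hv : v ∈ gr j) (s : K) :
    b (scal S.iP (fun p => s ^ p) v) = s ^ (j + n) • b v := by
  rw [← M.b_comp S (S.scal_gr _ hv), proj_scal, map_smul, M.b_comp S hv]

lemma hn_comp {j : ℕ} {v : V} (hv : v ∈ gr j) : (h ^ n) (proj S.iP (j + n) v) = (h ^ n) v := by
  conv_rhs => rw [S.sumP v, map_sum]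
  by_cases hj : j + n < 2 * m + 1
  · rw [Finset.sum_eq_single (j + n)]
    · intro p _ hp
      exact M.hn_proj S hv hp
    · intro h'; exact absurd (Finset.mem_range.2 hj) h'
  · rw [Finset.sum_eq_zero]
    · have h1 := proj_mem S.iP (j + n) v
      rw [S.bP _ (by omega)] at h1
      rw [(Submodule.mem_bot _).1 h1, map_zero]
    · intro p hp
      have := Finset.mem_range.1 hp
      exact M.hn_proj S hv (by omega)

/-- Classes on the fibre which are restrictions. -/
lemma exists_low {j : ℕ} {x : U} (hx : x ∈ LinearMap.range b) (hj : x ∈ grU j) :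
    ∃ u, u ∈ P (j + n) ∧ u ∈ gr j ∧ b u = x ∧ a x = (h ^ n) u := by
  obtain ⟨v, rfl⟩ := hx
  obtain ⟨w, hw, hw'⟩ := M.ab v
  have hb : ∀ w, b (proj S.igr j w) = proj M.iU j (b w) := by
    intro w
    refine gr_induction S.igr (p := fun w => b (proj S.igr j w) = proj M.iU j (b w)) ?_ ?_ w
    · intro i a ha
      by_cases hi : i = j
      · subst hi
        rw [proj_same _ ha, proj_same _ (M.bgr _ _ ha)]
      · rw [proj_ne _ ha hi, proj_ne _ (M.bgr _ _ ha) hi, map_zero]
    · intro a b ha hb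
      rw [map_add, map_add, map_add, map_add, ha, hb]
  have hh : ∀ w, (h ^ n) (proj S.igr j w) = proj S.igr (j + 2 * n) ((h ^ n) w) := by
    intro w
    refine gr_induction S.igr (p := fun w => (h ^ n) (proj S.igr j w) =
      proj S.igr (j + 2 * n) ((h ^ n) w)) ?_ ?_ w
    · intro i a ha
      have h1 := pow_L_mem S.hgr ha n
      by_cases hi : i = j
      · subst hi
        rw [proj_same _ ha, proj_same _ h1]
      · rw [proj_ne _ ha hi, proj_ne _ h1 (by omega), map_zero]
    · intro a b ha hb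
      rw [map_add, map_add, map_add, map_add, ha, hb]
  have h1 : proj S.igr j w ∈ gr j := proj_mem _ _ _
  refine ⟨proj S.iP (j + n) (proj S.igr j w), proj_mem _ _ _, S.projP_gr h1 _, ?_, ?_⟩
  · rw [M.b_comp S h1, hb, hw', proj_same _ hj]
  · rw [M.hn_comp S h1, hh, ← hw, proj_same _ (M.agr j _ hj)]

lemma Ha_low {j : ℕ} {u : V} (hu : u ∈ P (j + n)) (hu' : u ∈ gr j) :
    Ha S.igr S.iP m u = -(n : K) • u := by
  rw [S.Ha_apply hu hu']
  congr 1
  push_cast; ring

lemma fn_hn [Module.Finite K V] {Λ : Module.End K V} (t : Sl2 (Ha S.igr S.iP m) h Λ) {j : ℕ}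
    {u : V} (hu : u ∈ P (j + n)) (hu' : u ∈ gr j) :
    (Λ ^ n) ((h ^ n) u) = ((n.factorial : K) * n.factorial) • u := by
  have h1 := M.Ha_low S hu hu'
  have h2 : Λ u = 0 := Sl2.f_eq_zero t h1 (by rw [M.hn, LinearMap.zero_apply])
  have h3 := Sl2.f_pow_e_pow t h2 h1 (le_refl n)
  rw [h3, Nat.sub_self, Nat.factorial_zero, Nat.cast_one, inv_one, mul_one, pow_zero,
    Module.End.one_apply]

end FibreMaps

end Pool.Agent.J4H12.Fib
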