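import Pool.Agent.W498.Dom.Defs
import Pool.Agent.H914R2.KCorr

/-!
# The general fibre of a morphism: definitions
-/

set_option autoImplicit false

open CategoryTheory AlgebraicGeometry

universe u v

namespace Pool.Agent.J4H12.Fib

open Pool.Agent.H914 VarClass Obj WeilCohomology

variable {k : Type u} [Field k] {𝒱 : VarClass k} {ops : CycleOps 𝒱}

/-- The morphism `j : F ⟶ Y` looks for the cohomology theory `W` like the inclusion of a general
fibre of `f : Y ⟶ X`: its dimension is `dim Y - dim X`; up to a nonzero rational number its class on
`Y` is the pull-back of the top power of the class of the divisor `D` on `X`; and a class on `Y`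
whose product with the class of `F` is zero restricts to zero on `F`. (The last property holds in
the `ℓ`-adic theory for every fibre over a point over which `f` is smooth: the image of `H(Y)` in
`H(F)` is the space of the invariants of the fundamental group, on which the intersection form is
nondegenerate by the semisimplicity theorem of Deligne.) -/
structure IsGeneralFibre (W : WeilCohomology.{u, v} ops) {F Y X : 𝒱.Obj} (j : F ⟶ Y) (f : Y ⟶ X)
    (D : X.Cycles) : Prop where
  dim : Y.dim = X.dim + F.dim
  cls : ∃ q : ℚ, q ≠ 0 ∧ W.cl Y (ops.push j F.V.fundCycle) =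
    (q : W.K) • W.map f (W.cl X D) ^ X.dim
  ker : ∀ y, W.map f (W.cl X D) ^ X.dim * y = 0 → W.map j y = 0

/-- There is a `K`-linear combination `s` of algebraic correspondences of degree zero from `F` to
`Y` which splits the restriction `j^* : H(Y) → H(F)`, that is `j^* s j^* = j^*`. -/
def AlgebraicallySplit (W : WeilCohomology.{u, v} ops) {F Y : 𝒱.Obj} (j : F ⟶ Y) : Prop :=
  ∃ s ∈ KOp W F Y 0, ∀ y, W.map j (s (W.map j y)) = W.map j y

/-- A `K`-linear combination of algebraic correspondences from `F` to itself acts as the identity on
the image of `j^* : H(Y) → H(F)`, has its values in this image, and kills the classes which are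
orthogonal to it. In particular `H(F)` is the direct sum of the image and of its orthogonal
complement. -/
def ProjectorAlgebraic (W : WeilCohomology.{u, v} ops) {F Y : 𝒱.Obj} (j : F ⟶ Y) : Prop :=
  ∃ p ∈ KOp W F F 0, (∀ y, p (W.map j y) = W.map j y) ∧ (∀ x, ∃ y, p x = W.map j y) ∧
    ∀ x, (∀ y, W.tr F (x * W.map j y) = 0) → p x = 0

/-- For every `c ≤ dim F` a `K`-linear combination of algebraic correspondences from `F` to itself
inverts the map `ξ ^ c : H^(dim F - c)(F) → H^(dim F + c)(F)` on the image of `j^*`, where `ξ` is
the class of the divisor `E` on `F`. -/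
def LefschetzBOnImage (W : WeilCohomology.{u, v} ops) {F Y : 𝒱.Obj} (j : F ⟶ Y) (E : F.Cycles) :
    Prop :=
  ∀ c ≤ F.dim, ∃ θ ∈ KOp W F F (-(c : ℤ)), ∀ y, W.map j y ∈ W.gr F (F.dim - c) →
    θ (W.cl F E ^ c * W.map j y) = W.map j y

/-- A `K`-linear combination of classes of cycles on `F` which is the restriction of some cohomology
class on `Y` is the restriction of a `K`-linear combination of classes of cycles on `Y`. -/
def CyclesExtend (W : WeilCohomology.{u, v} ops) {F Y : 𝒱.Obj} (j : F ⟶ Y) : Prop :=
  ∀ (q : ℕ) (y : W.H Y), W.map j y ∈ spanCycles W F q →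
    ∃ z ∈ spanCycles W Y q, W.map j z = W.map j y

end Pool.Agent.J4H12.Fib
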