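import Pool.Agent.J4H12.Fib.Lim
import Pool.Agent.J4H12.Fib.Defs
import Pool.Agent.H914R2.Blocks

/-!
# The Lefschetz standard conjecture for the total space and the fibres
-/

set_option autoImplicit false

open CategoryTheory AlgebraicGeometry Finset Polynomial

universe u v

namespace Pool.Agent.J4H12.Fib

open Pool.Agent.H914 Pool.Agent.H447 Pool.Agent.W498.Dom VarClass Obj WeilCohomology

variable {k : Type u} [Field k] {𝒱 : VarClass k} {ops : CycleOps 𝒱}
  {W : WeilCohomology.{u, v} ops} {X Y F : 𝒱.Obj} {f : Y ⟶ X} {D : X.Cycles} {E : Y.Cycles}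

/-- Two algebraic correspondences relating the total space and a variety `F` (a fibre, or a variety
related to it). -/
structure FibreCorr (W : WeilCohomology.{u, v} ops) {F Y X : 𝒱.Obj} (f : Y ⟶ X) (D : X.Cycles)
    (a : W.H F →ₗ[W.K] W.H Y) (b : W.H Y →ₗ[W.K] W.H F) : Prop where
  alg_a : a ∈ KOp W F Y X.dim
  alg_b : b ∈ KOp W Y F 0
  ker : ∀ y, W.map f (W.cl X D) ^ X.dim * y = 0 → b y = 0
  ab : ∀ y, ∃ y', a (b y) = W.map f (W.cl X D) ^ X.dim * y' ∧ b y' = b y

lemma hop_pow' (j : ℕ) (x : W.H Y) : (hop W f D ^ j) x = W.map f (W.cl X D) ^ j * x := by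
  rw [hop_pow, map_pow]

lemma FibreCorr.maps {a : W.H F →ₗ[W.K] W.H Y} {b : W.H Y →ₗ[W.K] W.H F}
    (hab : FibreCorr W f D a b) (hD : X.IsCyc 1 D) :
    FibreMaps (W.gr Y) (W.gr F) X.dim (hop W f D) a b where
  iU := W.isInternal F
  bgr := fun i v hv => by
    have h1 := KOp.isHom hab.alg_b i v (by rw [grZ_natCast]; exact hv)
    rwa [mul_zero, add_zero, grZ_natCast] at h1
  agr := fun i x hx => by
    have h1 := KOp.isHom hab.alg_a i x (by rw [grZ_natCast]; exact hx)
    rwa [show (i : ℤ) + 2 * (X.dim : ℤ) = ((i + 2 * X.dim : ℕ) : ℤ) by push_cast; ring,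
      grZ_natCast] at h1
  hn := by
    apply LinearMap.ext
    intro x
    rw [hop_pow]
    have := xi_mem (W := W) hD (X.dim + 1)
    rw [W.gr_eq_bot X _ (by omega)] at this
    rw [(Submodule.mem_bot _).1 this, map_zero, zero_mul, LinearMap.zero_apply]
  ker := fun v hv => by
    rw [hop_pow'] at hv
    exact hab.ker v hv
  ab := fun v => by
    obtain ⟨w, h1, h2⟩ := hab.ab v
    exact ⟨w, by rw [h1, hop_pow'], h2⟩

lemma kop_pow {T : Module.End W.K (W.H Y)} {d : ℤ} (hT : T ∈ KOp W Y Y d) (j : ℕ) :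
    T ^ j ∈ KOp W Y Y (j * d) :=
  mem_KS_iff.1 ((rop_opAlg (W := W) (X := Y)).kspan.pow (mem_KS_iff.2 hT) j)

/-- The hypothesis that the standard conjecture holds for `Y`, in terms of injective operators. -/
def InjY (W : WeilCohomology.{u, v} ops) (Y : 𝒱.Obj) : Prop :=
  ∀ c ≤ Y.dim, ∃ ν ∈ KOp W Y Y (-(c : ℤ)), ∀ a ∈ W.gr Y (Y.dim + c), ν a = 0 → a = 0

lemma hdimY (W : WeilCohomology.{u, v} ops) (Y : 𝒱.Obj) {m : ℕ} (hm : Y.dim = m) :
    ∀ c ≤ m, Module.finrank W.K (W.gr Y (m - c)) = Module.finrank W.K (W.gr Y (m + c)) := by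
  subst hm
  intro c hc
  have := betti_symm (X := Y) W (i := Y.dim - c) (by omega)
  rw [show 2 * Y.dim - (Y.dim - c) = Y.dim + c by omega] at this
  exact this.symm

/-- An algebraic operator of degree `-n - c` on the total space which induces an injective operator
on the image in the cohomology of the fibre. -/
lemma exists_theta (Q : PerverseDecomposition W f D E) (hD : X.IsCyc 1 D) (hE : Y.IsCyc 1 E)
    (hν : InjY W Y) {a : W.H F →ₗ[W.K] W.H Y} {b : W.H Y →ₗ[W.K] W.H F}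
    (hab : FibreCorr W f D a b) (c : ℕ) (J : Finset ℕ)
    (hinj0 : ∀ j ∈ J, ∀ Λ', Sl2 (wt Q.isInternal Y.dim) (top Q.isInternal Y.dim (eop W Y E)) Λ' →
      IsHom Q.piece (-2) Λ' → ∀ u ∈ Q.piece (j + X.dim), u ∈ W.gr Y j →
        b ((Λ' ^ c) u) = 0 → b u = 0) :
    ∃ Θ ∈ KOp W Y Y (-(X.dim + c : ℕ) : ℤ), ∀ j ∈ J, ∀ x ∈ LinearMap.range b, x ∈ W.gr F j →
      b (Θ (a x)) = 0 → x = 0 := by
  have S := setup Q hD hE rfl
  have M := hab.maps hD
  have h1 : ∀ j, ∃ p : W.K[X], p ≠ 0 ∧ (j ∈ J → ∀ s, s ≠ 0 → p.eval s ≠ 0 →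
      ∀ f', Sl2 (wt S.igr Y.dim) (hop W f D + s ^ 2 • eop W Y E) f' →
        ∀ x ∈ LinearMap.range b, x ∈ W.gr F j → b ((f' ^ (X.dim + c)) (a x)) = 0 → x = 0) := by
    intro j
    by_cases hj : j ∈ J
    · obtain ⟨p, hp, hp'⟩ := M.exists_poly S c j (hinj0 j hj)
      exact ⟨p, hp, fun _ => hp'⟩
    · exact ⟨1, one_ne_zero, fun h => absurd h hj⟩
  choose p hp hp' using h1
  obtain ⟨p0, hp0, hp0'⟩ := FibreMaps.exists_poly_hl S (hdimY W Y rfl)
  obtain ⟨s, hs, hroot⟩ := exists_nonroot (p0 * ∏ j ∈ J, p j)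
    (mul_ne_zero hp0 (Finset.prod_ne_zero_iff.2 fun j _ => hp j))
  rw [eval_mul, eval_prod] at hroot
  have r1 := left_ne_zero_of_mul hroot
  have r2 := Finset.prod_ne_zero_iff.1 (right_ne_zero_of_mul hroot)
  have hk : hop W f D + s ^ 2 • eop W Y E ∈ KOp W Y Y 1 :=
    Submodule.add_mem _ (kop_hop hD) (Submodule.smul_mem _ _ (Pool.Agent.W534.kop_L hE))
  obtain ⟨F1, hF1, t1⟩ := exists_lower hk (hp0' s hs r1) hν
  refine ⟨F1 ^ (X.dim + c), KOp.cast (kop_pow hF1 _) (by ring), fun j hj x hx hxj h0 => ?_⟩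
  exact hp' j hj s hs (r2 j hj) F1 t1 x hx hxj h0

section

variable {a : W.H F →ₗ[W.K] W.H Y} {b : W.H Y →ₗ[W.K] W.H F}

/-- The operator induced on the cohomology of the fibre. -/
lemma exists_section (Q : PerverseDecomposition W f D E) (hD : X.IsCyc 1 D) (hE : Y.IsCyc 1 E)
    (hν : InjY W Y) (hab : FibreCorr W f D a b) :
    ∃ (T : W.H F →ₗ[W.K] W.H Y) (g : W.K[X]), T ∈ KOp W F Y 0 ∧
      (∀ x ∈ LinearMap.range b, (aeval (b ∘ₗ T) g) (b (T x)) = x) ∧
      (∀ x, a x = 0 → T x = 0) := by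
  obtain ⟨Θ, hΘ, hΘinj⟩ := exists_theta Q hD hE hν hab 0 (range (2 * F.dim + 1)) (by
    intro j _ Λ' _ _ u _ _ h0
    simpa using h0)
  have M := hab.maps hD
  set R : Module.End W.K (W.H F) := b ∘ₗ Θ ∘ₗ a with hR
  have hTk : Θ ∘ₗ a ∈ KOp W F Y 0 := KOp.cast (KOp.comp hΘ hab.alg_a) (by push_cast; ring)
  have hRk : R ∈ KOp W F F 0 := KOp.cast (KOp.comp hab.alg_b hTk) (by ring)
  have hbh : ∀ (j : ℕ) (w : W.H Y), b (proj (W.isInternal Y) j w) =
      proj (W.isInternal F) j (b w) := by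
    intro j w
    refine gr_induction (W.isInternal Y) (p := fun w => b (proj (W.isInternal Y) j w) =
      proj (W.isInternal F) j (b w)) ?_ ?_ w
    · intro i a ha
      by_cases hi : i = j
      · subst hi
        rw [proj_same _ ha, proj_same _ (M.bgr _ _ ha)]
      · rw [proj_ne _ ha hi, proj_ne _ (M.bgr _ _ ha) hi, map_zero]
    · intro a b ha hb
      rw [map_add, map_add, map_add, map_add, ha, hb]
  have hRh : ∀ (j : ℕ) (w : W.H F), R (proj (W.isInternal F) j w) =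
      proj (W.isInternal F) j (R w) := by
    intro j w
    refine gr_induction (W.isInternal F) (p := fun w => R (proj (W.isInternal F) j w) =
      proj (W.isInternal F) j (R w)) ?_ ?_ w
    · intro i a ha
      have h2 := KOp.isHom hRk i a (by rw [grZ_natCast]; exact ha)
      rw [mul_zero, add_zero, grZ_natCast] at h2
      by_cases hi : i = j
      · subst hi
        rw [proj_same _ ha, proj_same _ h2]
      · rw [proj_ne _ ha hi, proj_ne _ h2 hi, map_zero]
    · intro a b ha hb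
      rw [map_add, map_add, map_add, map_add, ha, hb]
  obtain ⟨g, hg⟩ := exists_inv_on (E := R) (S := LinearMap.range b)
    (fun x _ => ⟨Θ (a x), rfl⟩)
    (by
      rintro x ⟨w, rfl⟩ h0
      have hsum := sum_proj (W.isInternal F) (N := 2 * F.dim + 1)
        (fun i hi => W.gr_eq_bot F i (by omega))
      have h2 := congrArg (fun G : Module.End W.K (W.H F) => G (b w)) hsum
      simp only [LinearMap.sum_apply, Module.End.one_apply] at h2
      rw [← h2]
      apply Finset.sum_eq_zero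
      intro j hj
      apply hΘinj j hj _ ⟨proj (W.isInternal Y) j w, hbh j w⟩ (proj_mem _ _ _)
      have h3 := hRh j (b w)
      rw [h0, map_zero] at h3
      exact h3)
  refine ⟨Θ ∘ₗ a, g, hTk, fun x hx => hg x hx, fun x hx => ?_⟩
  rw [LinearMap.comp_apply, hx, map_zero]

lemma aeval_comm_apply {K V : Type*} [Field K] [AddCommGroup V] [Module K V]
    (R : Module.End K V) (g : K[X]) (x : V) : R (aeval R g x) = aeval R g (R x) := by
  have h1 : R * aeval R g = aeval R g * R := by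
    have : (aeval R) (X * g) = (aeval R) (g * X) := by rw [mul_comm]
    rwa [map_mul, map_mul, aeval_X] at this
  exact congrArg (fun G : Module.End K V => G x) h1

lemma aeval_kop {R : Module.End W.K (W.H F)} (hR : R ∈ KOp W F F 0) (g : W.K[X]) :
    aeval R g ∈ KOp W F F 0 :=
  mem_KS_iff.1 ((rop_opAlg (W := W) (X := F)).kspan_aeval (mem_KS_iff.2 hR) g)

/-- **The restriction to the fibre has an algebraic splitting.** -/
theorem exists_split (Q : PerverseDecomposition W f D E) (hD : X.IsCyc 1 D) (hE : Y.IsCyc 1 E)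
    (hν : InjY W Y) (hab : FibreCorr W f D a b) :
    ∃ s ∈ KOp W F Y 0, (∀ x ∈ LinearMap.range b, b (s x) = x) ∧ ∀ x, a x = 0 → b (s x) = 0 := by
  obtain ⟨T, g, hT, hg, hT0⟩ := exists_section Q hD hE hν hab
  have hR : b ∘ₗ T ∈ KOp W F F 0 := KOp.cast (KOp.comp hab.alg_b hT) (by ring)
  refine ⟨T ∘ₗ aeval (b ∘ₗ T) g, KOp.cast (KOp.comp hT (aeval_kop hR g)) (by ring), ?_, ?_⟩
  · intro x hx
    rw [LinearMap.comp_apply]
    have h1 := aeval_comm_apply (b ∘ₗ T) g x
    rw [LinearMap.comp_apply] at h1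
    rw [h1]
    exact hg x hx
  · intro x hx
    rw [LinearMap.comp_apply]
    have h1 := aeval_comm_apply (b ∘ₗ T) g x
    rw [LinearMap.comp_apply] at h1
    rw [h1, LinearMap.comp_apply, hT0 x hx, map_zero, map_zero]

end

section Fibre

variable {j : F ⟶ Y}

lemma fibreCorr (hj : IsGeneralFibre W j f D) : ∃ q : W.K, q ≠ 0 ∧
    FibreCorr W f D (q • W.push j) (W.map j).toLinearMap ∧
      ∀ y, (q • W.push j) (W.map j y) = W.map f (W.cl X D) ^ X.dim * y := by
  obtain ⟨q, hq, hcl⟩ := hj.cls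
  have hq' : (q : W.K) ≠ 0 := by exact_mod_cast hq
  have h1 : ∀ y, ((q : W.K)⁻¹ • W.push j) (W.map j y) = W.map f (W.cl X D) ^ X.dim * y := by
    intro y
    have h2 := W.push_mul j 1 y
    rw [one_mul] at h2
    rw [W.cl_push, W.cl_fund] at hcl
    rw [LinearMap.smul_apply, h2, hcl, smul_mul_assoc, smul_smul, inv_mul_cancel₀ hq', one_smul]
  refine ⟨(q : W.K)⁻¹, inv_ne_zero hq', ⟨?_, ?_, ?_, ?_⟩, h1⟩
  · apply Submodule.smul_mem
    refine KOp.cast (Pool.Agent.W534.qop_push (W := W) j).kop ?_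
    have := hj.dim
    omega
  · exact (Pool.Agent.W534.qop_pull (W := W) j).kop
  · intro y hy
    exact hj.ker y hy
  · intro y
    exact ⟨y, h1 y, rfl⟩

/-- **Injective operators on the image of the restriction.** -/
theorem exists_inj (Q : PerverseDecomposition W f D E) (hD : X.IsCyc 1 D) (hE : Y.IsCyc 1 E)
    (hν : InjY W Y) (hj : IsGeneralFibre W j f D) {c : ℕ} (hc : c ≤ F.dim) :
    ∃ ν ∈ KOp W F F (-(c : ℤ)), (∀ x, ν x ∈ LinearMap.range (W.map j).toLinearMap) ∧
      ∀ x ∈ LinearMap.range (W.map j).toLinearMap, x ∈ W.gr F (F.dim + c) → ν x = 0 → x = 0 := by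
  obtain ⟨q, hq, hab, hj1⟩ := fibreCorr hj
  have S := setup Q hD hE rfl
  obtain ⟨Θ, hΘ, hΘinj⟩ := exists_theta Q hD hE hν hab c {F.dim + c} (by
    intro i hi Λ' t2 _ u hu hu' h0
    rw [Finset.mem_singleton] at hi
    subst hi
    have h1 : (hop W f D ^ X.dim) ((Λ' ^ c) u) = 0 := by
      rw [hop_pow', ← hj1]
      have : W.map j ((Λ' ^ c) u) = 0 := h0
      rw [this, map_zero]
    have hwh : wt S.iP Y.dim * hop W f D = hop W f D * wt S.iP Y.dim := by
      have := S.isHomP_h.wt_comm S.iP Y.dim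
      rw [this]; simp
    have c1 : hop W f D * Λ' = Λ' * hop W f D := comm_f t2 hwh.symm S.h_top
    have c2 : Commute (hop W f D) Λ' := c1
    have c3 := ((c2.pow_left X.dim).pow_right c).eq
    rw [← Module.End.mul_apply, c3, Module.End.mul_apply] at h1
    have hv0P : (hop W f D ^ X.dim) u ∈ Q.piece (F.dim + c + X.dim) := by
      rw [← proj_same S.iP hu, S.pow_h_projP]
      exact proj_mem _ _ _
    have h2 := f_pow_inj t2 (c := c) (by
      rw [wt_apply Q.isInternal Y.dim hv0P]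
      congr 1
      rw [hj.dim]
      push_cast; ring) h1
    rw [hop_pow'] at h2
    exact hab.ker u h2)
  refine ⟨(W.map j).toLinearMap ∘ₗ Θ ∘ₗ (q • W.push j), ?_, ?_, ?_⟩
  · refine KOp.cast (KOp.comp hab.alg_b (KOp.comp hΘ hab.alg_a)) ?_
    push_cast; ring
  · intro x
    exact ⟨_, rfl⟩
  · intro x hx hxc h0
    exact hΘinj _ (Finset.mem_singleton_self _) x hx hxc h0

end Fibre

end Pool.Agent.J4H12.Fib
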