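import Pool.Agent.J4H12.Fib.Alg

/-!
# The limit of the lowering operators on a fibre
-/

set_option autoImplicit false

open Finset Polynomial

namespace Pool.Agent.J4H12.Fib

open Pool.Agent.H914 Pool.Agent.H447 Pool.Agent.W498.Dom

variable {K : Type*} [Field K] [CharZero K] {V : Type*} [AddCommGroup V] [Module K V]
  {U : Type*} [AddCommGroup U] [Module K U]

/-- The lowering operator of a triple with the weight operator has degree `-2`. -/
lemma isHom_low {gr : ℕ → Submodule K V} (igr : DirectSum.IsInternal gr) {m N : ℕ}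
    (bgr : ∀ i, N ≤ i → gr i = ⊥) {f : Module.End K V}
    (hf : wt igr m * f - f * wt igr m = -(2 * f)) : IsHom gr (-2) f := by
  intro i v hv
  by_cases hi : 0 ≤ i
  · lift i to ℕ using hi
    rw [grZ_natCast] at hv
    apply mem_of_wt igr bgr (n := m)
    have h1 := congrArg (fun F : Module.End K V => F v) hf
    simp only [LinearMap.sub_apply, Module.End.mul_apply, LinearMap.neg_apply, two_mul,
      LinearMap.add_apply] at h1
    rw [wt_apply igr m hv, map_smul, sub_eq_iff_eq_add] at h1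
    rw [h1, neg_add_eq_sub, ← two_smul K (f v), ← sub_smul]
    congr 1
    push_cast; ring
  · rw [grZ_of_neg (by omega)] at hv
    rw [(Submodule.mem_bot _).1 hv, map_zero]
    exact Submodule.zero_mem _

namespace FibreMaps

variable {gr P : ℕ → Submodule K V} {grU : ℕ → Submodule K U} {n m : ℕ} {h e : Module.End K V}
  {a : U →ₗ[K] V} {b : V →ₗ[K] U} (S : Setup gr P m h e) (M : FibreMaps gr grU n h a b)

section

variable [Module.Finite K V] {Λ Λ' : Module.End K V} (t1 : Sl2 (Ha S.igr S.iP m) h Λ)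
  (t2 : Sl2 (wt S.iP m) (top S.iP m e) Λ')

include t1 in
lemma projP_low (p : ℕ) : proj S.iP p * Λ = Λ * proj S.iP p :=
  comm_f t1 (S.Ha_projP p).symm (S.projP_h p)

include t1 t2 in
lemma low_comm : Λ * Λ' = Λ' * Λ := by
  have hwh : wt S.iP m * h = h * wt S.iP m := by
    have := S.isHomP_h.wt_comm S.iP m
    rw [this]; simp
  have hwHa : wt S.iP m * Ha S.igr S.iP m = Ha S.igr S.iP m * wt S.iP m := by
    rw [Ha, mul_sub, sub_mul, S.wt_wt]
  have c2 : top S.iP m e * Λ = Λ * top S.iP m e := comm_f t1 S.Ha_top.symm S.h_top.symm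
  have c3 : wt S.iP m * Λ = Λ * wt S.iP m := comm_f t1 hwHa hwh
  exact comm_f t2 c3.symm c2.symm

include t2 in
lemma isHom_low' : IsHom gr (-2) Λ' := by
  apply isHom_low S.igr S.bgr (m := m)
  have hwHa : wt S.iP m * Ha S.igr S.iP m = Ha S.igr S.iP m * wt S.iP m := by
    rw [Ha, mul_sub, sub_mul, S.wt_wt]
  have c4 : Ha S.igr S.iP m * Λ' = Λ' * Ha S.igr S.iP m := comm_f t2 hwHa.symm S.Ha_top
  have h1 : Ha S.igr S.iP m + wt S.iP m = wt S.igr m := by rw [Ha, sub_add_cancel]
  rw [← h1, add_mul, mul_add, c4, add_sub_add_left_eq_sub]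
  exact t2.hf

include M t1 t2 in
/-- The value of the family at zero. -/
lemma zero_value (hΛ' : IsHom P (-2) Λ') {j c : ℕ} {u : V} (hu : u ∈ P (j + n))
    (hu' : u ∈ gr j) (t : Sl2 (wt S.igr m) (h + top S.iP m e) (Λ + Λ')) :
    ∃ κ : K, κ ≠ 0 ∧ b (((Λ + Λ') ^ (n + c)) ((h ^ n) u)) = κ • b ((Λ' ^ c) u) := by
  have hT : IsHom gr (-2) (Λ + Λ') := isHom_low S.igr S.bgr t.hf
  have hv0 : (h ^ n) u ∈ gr (j + 2 * n) := pow_L_mem S.hgr hu' n
  have hv0P : (h ^ n) u ∈ P (j + n) := by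
    rw [← proj_same S.iP hu, S.pow_h_projP]
    exact proj_mem _ _ _
  have hTN := (hT.pow (n + c)) (j + 2 * n : ℕ) ((h ^ n) u) (by rw [grZ_natCast]; exact hv0)
  have hΛc := ((isHom_low' S t2).pow c) j u (by rw [grZ_natCast]; exact hu')
  by_cases hjc : j < 2 * c
  · refine ⟨1, one_ne_zero, ?_⟩
    rw [grZ_of_neg (by push_cast; omega)] at hTN
    rw [grZ_of_neg (by omega)] at hΛc
    rw [(Submodule.mem_bot _).1 hTN, (Submodule.mem_bot _).1 hΛc, map_zero, smul_zero]
  · obtain ⟨j', rfl⟩ : ∃ j', j = j' + 2 * c := ⟨j - 2 * c, by omega⟩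
    rw [show ((j' + 2 * c + 2 * n : ℕ) : ℤ) + ((n + c : ℕ) : ℤ) * -2 = (j' : ℤ) by
      push_cast; ring, grZ_natCast] at hTN
    refine ⟨((n + c).choose n : K) * ((n.factorial : K) * n.factorial), ?_, ?_⟩
    · have h1 : ((n + c).choose n : K) ≠ 0 := by
        exact_mod_cast (Nat.choose_pos (Nat.le_add_right n c)).ne'
      have h2 : (n.factorial : K) ≠ 0 := by exact_mod_cast n.factorial_ne_zero
      exact mul_ne_zero h1 (mul_ne_zero h2 h2)
    · rw [← M.b_comp S hTN]
      have hcomm : Commute Λ Λ' := low_comm S t1 t2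
      have hproj : ∀ (i k : ℕ), k ≠ c → proj S.iP (j' + n) ((Λ ^ i) ((Λ' ^ k) ((h ^ n) u))) = 0 := by
        intro i k hk
        have h1 : Commute (proj S.iP (j' + n)) Λ := projP_low S t1 _
        have h2 := (h1.pow_right i).eq
        rw [← Module.End.mul_apply, h2, Module.End.mul_apply]
        have h3 := (hΛ'.pow k) (j' + 2 * c + n : ℕ) ((h ^ n) u) (by
          rw [grZ_natCast]; exact hv0P)
        by_cases h4 : ((j' + 2 * c + n : ℕ) : ℤ) + (k : ℤ) * -2 < 0
        · rw [grZ_of_neg h4] at h3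
          rw [(Submodule.mem_bot _).1 h3, map_zero, map_zero]
        · obtain ⟨l, hl⟩ := Int.eq_ofNat_of_zero_le (not_lt.1 h4)
          rw [hl, grZ_natCast] at h3
          rw [proj_ne S.iP h3 (by omega), map_zero]
      have hmain : proj S.iP (j' + n) (((Λ + Λ') ^ (n + c)) ((h ^ n) u)) =
          (((n + c).choose n : K) * ((n.factorial : K) * n.factorial)) • (Λ' ^ c) u := by
        rw [hcomm.add_pow, LinearMap.sum_apply, map_sum, Finset.sum_eq_single n]
        · have e1 : (Λ ^ n * Λ' ^ (n + c - n) * ((n + c).choose n : Module.End K V))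
              ((h ^ n) u) = ((n + c).choose n : K) • (Λ' ^ c) ((Λ ^ n) ((h ^ n) u)) := by
            rw [Nat.add_sub_cancel_left, ((hcomm.pow_left n).pow_right c).eq,
              ← Nat.cast_comm, ← nsmul_eq_mul, LinearMap.smul_apply, Module.End.mul_apply,
              Nat.cast_smul_eq_nsmul]
          rw [e1, M.fn_hn S t1 hu hu', map_smul, map_smul, map_smul, smul_smul]
          congr 1
          have h3 := (hΛ'.pow c) (j' + 2 * c + n : ℕ) u (by rw [grZ_natCast]; exact hu)
          rw [show ((j' + 2 * c + n : ℕ) : ℤ) + (c : ℤ) * -2 = ((j' + n : ℕ) : ℤ) by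
            push_cast; ring, grZ_natCast] at h3
          exact proj_same S.iP h3
        · intro i hi hin
          have hi' := Finset.mem_range.1 hi
          have e1 : (Λ ^ i * Λ' ^ (n + c - i) * ((n + c).choose i : Module.End K V))
              ((h ^ n) u) = ((n + c).choose i : K) • (Λ ^ i) ((Λ' ^ (n + c - i)) ((h ^ n) u)) := by
            rw [← Nat.cast_comm, ← nsmul_eq_mul, LinearMap.smul_apply, Module.End.mul_apply,
              Nat.cast_smul_eq_nsmul]
          rw [e1, map_smul, hproj i (n + c - i) (by omega), smul_zero]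
        · intro h'; exact absurd (Finset.mem_range.2 (by omega)) h'
      rw [hmain, map_smul]

end

include M in
/-- **The limit argument on a fibre.** -/
theorem exists_poly [Module.Finite K V] [Module.Finite K U] (c j : ℕ)
    (hinj0 : ∀ Λ', Sl2 (wt S.iP m) (top S.iP m e) Λ' → IsHom P (-2) Λ' →
      ∀ u ∈ P (j + n), u ∈ gr j → b ((Λ' ^ c) u) = 0 → b u = 0) :
    ∃ p : K[X], p ≠ 0 ∧ ∀ s, s ≠ 0 → p.eval s ≠ 0 →
      ∀ f, Sl2 (wt S.igr m) (h + s ^ 2 • e) f →
        ∀ x ∈ LinearMap.range b, x ∈ grU j → b ((f ^ (n + c)) (a x)) = 0 → x = 0 := by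
  obtain ⟨Λ, Λ', t1, t2, hΛ', t⟩ := S.exists_sl2_both
  obtain ⟨q, A, hq, hA, hqA⟩ := S.exists_family
  have hA0 : A 0 = q.eval 0 • (Λ + Λ') := (hqA 0 (Λ + Λ') (by rw [S.LL_zero]; exact t)).symm
  set I : Submodule K U := LinearMap.range b ⊓ grU j with hI
  set G : K → I →ₗ[K] U := fun s => b ∘ₗ ((A s) ^ (n + c)) ∘ₗ a ∘ₗ I.subtype with hG
  have hGf : PFam G := by
    intro x
    exact ((hA.pfam.pow (n + c)) (a x)).map b
  have hG0 : Function.Injective (G 0) := by
    rw [← LinearMap.ker_eq_bot, LinearMap.ker_eq_bot']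
    rintro ⟨x, hx, hxj⟩ h0
    obtain ⟨u, hu, hu', hbu, hau⟩ := M.exists_low S hx hxj
    have h1 : b (((A 0) ^ (n + c)) (a x)) = 0 := h0
    obtain ⟨κ, hκ, h2⟩ := M.zero_value S t1 t2 hΛ' (c := c) hu hu' t
    rw [hA0, _root_.smul_pow, LinearMap.smul_apply, map_smul, hau, h2] at h1
    rcases smul_eq_zero.1 h1 with h3 | h3
    · exact absurd h3 (pow_ne_zero _ hq)
    · rcases smul_eq_zero.1 h3 with h4 | h4
      · exact absurd h4 hκ
      · apply Subtype.ext
        change x = 0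
        rw [← hbu]
        exact hinj0 Λ' t2 hΛ' u hu hu' h4
  obtain ⟨p, hp, hp'⟩ := hGf.generic_inj hG0
  have hq0 : q ≠ 0 := by
    intro h0
    apply hq
    rw [h0, eval_zero]
  refine ⟨p * q, mul_ne_zero hp hq0, fun s hs hpq f tf x hx hxj h0 => ?_⟩
  rw [eval_mul] at hpq
  have hps := left_ne_zero_of_mul hpq
  obtain ⟨u, hu, hu', hbu, hau⟩ := M.exists_low S hx hxj
  have g1 := hqA s _ (S.sl2_conj hs tf)
  set D := scal S.iP (fun p => s ^ p) with hD
  set D' := scal S.iP (fun p => (s ^ p)⁻¹) with hD'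
  have hDD' : D * D' = 1 := S.scal_inv hs
  have hconj : ∀ j : ℕ, (D' * f * D) ^ j = D' * f ^ j * D := by
    intro j
    induction j with
    | zero => rw [pow_zero, pow_zero, mul_one, hD, hD', S.inv_scal hs]
    | succ j ih =>
      rw [pow_succ, ih, pow_succ]
      calc D' * f ^ j * D * (D' * f * D) = D' * f ^ j * (D * D') * f * D := by noncomm_ring
        _ = _ := by rw [hDD']; noncomm_ring
  have hv0P : (h ^ n) u ∈ P (j + n) := by
    rw [← proj_same S.iP hu, S.pow_h_projP]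
    exact proj_mem _ _ _
  have hfh : IsHom gr (-2) f := isHom_low S.igr S.bgr tf.hf
  have hv0 : (h ^ n) u ∈ gr (j + 2 * n) := pow_L_mem S.hgr hu' n
  have hfN := (hfh.pow (n + c)) (j + 2 * n : ℕ) ((h ^ n) u) (by rw [grZ_natCast]; exact hv0)
  have hD's : D' = scal S.iP (fun p => (s⁻¹) ^ p) := by
    rw [hD']
    congr 1
    funext p
    rw [inv_pow]
  have hbD : b (D' ((f ^ (n + c)) ((h ^ n) u))) = 0 := by
    by_cases hneg : ((j + 2 * n : ℕ) : ℤ) + ((n + c : ℕ) : ℤ) * -2 < 0
    · rw [grZ_of_neg hneg] at hfN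
      rw [(Submodule.mem_bot _).1 hfN, map_zero, map_zero]
    · obtain ⟨l, hl⟩ := Int.eq_ofNat_of_zero_le (not_lt.1 hneg)
      rw [hl, grZ_natCast] at hfN
      rw [hD's, M.b_scal S hfN, ← hau, h0, smul_zero]
  have hGs : G s ⟨x, hx, hxj⟩ = 0 := by
    change b (((A s) ^ (n + c)) (a x)) = 0
    rw [← g1, _root_.smul_pow, hconj, LinearMap.smul_apply, map_smul, Module.End.mul_apply,
      Module.End.mul_apply, hau, hD, scal_apply S.iP _ hv0P, map_smul, map_smul, map_smul, hbD,
      smul_zero, smul_zero]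
  have h3 := hp' s hps
  rw [← LinearMap.ker_eq_bot, LinearMap.ker_eq_bot'] at h3
  exact congrArg Subtype.val (h3 ⟨x, hx, hxj⟩ hGs)

include S in
/-- Hard Lefschetz for the general members of the pencil. -/
theorem exists_poly_hl [Module.Finite K V]
    (hdim : ∀ c ≤ m, Module.finrank K (gr (m - c)) = Module.finrank K (gr (m + c))) :
    ∃ p : K[X], p ≠ 0 ∧ ∀ s, s ≠ 0 → p.eval s ≠ 0 → HardLef gr m (h + s ^ 2 • e) := by
  obtain ⟨Λ, Λ', t1, t2, hΛ', t⟩ := S.exists_sl2_both
  have hG : ∀ c' : ℕ, ∃ p : K[X], p ≠ 0 ∧ ∀ s, p.eval s ≠ 0 →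
      ∀ v ∈ gr (m - c'), c' ≤ m → (LL S.iP m h e s ^ c') v = 0 → v = 0 := by
    intro c'
    by_cases hc' : c' ≤ m
    · set G : K → gr (m - c') →ₗ[K] V := fun s =>
        (LL S.iP m h e s ^ c') ∘ₗ (gr (m - c')).subtype with hG
      have hGf : PFam G := fun x => (S.pvec_LL.pfam.pow c') x
      have hG0 : Function.Injective (G 0) := by
        rw [← LinearMap.ker_eq_bot, LinearMap.ker_eq_bot']
        intro y hy
        apply Subtype.ext
        rw [hG] at hy
        simp only [LinearMap.comp_apply, Submodule.subtype_apply] at hy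
        rw [S.LL_zero] at hy
        apply e_pow_inj t (c := c') _ hy
        rw [wt_apply S.igr m y.2]
        congr 1
        rw [Nat.cast_sub hc']
        push_cast; ring
      obtain ⟨p, hp, hp'⟩ := hGf.generic_inj hG0
      refine ⟨p, hp, fun s hs v hv _ h0 => ?_⟩
      have h3 := hp' s hs
      rw [← LinearMap.ker_eq_bot, LinearMap.ker_eq_bot'] at h3
      exact congrArg Subtype.val (h3 ⟨v, hv⟩ h0)
    · exact ⟨1, one_ne_zero, fun s _ v _ h' => absurd h' hc'⟩
  choose pG hpG hpG' using hG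
  refine ⟨∏ c' ∈ range (m + 1), pG c', Finset.prod_ne_zero_iff.2 (fun c' _ => hpG c'),
    fun s hs hps => ?_⟩
  rw [eval_prod] at hps
  apply S.hardLef_of_inj hdim hs
  intro c' hc' v hv h0
  exact hpG' c' s (Finset.prod_ne_zero_iff.1 hps c' (Finset.mem_range.2 (by omega))) v hv hc' h0

end FibreMaps

end Pool.Agent.J4H12.Fib
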