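import Pool.Agent.J4H12.Fib.Geo

/-!
# The Lefschetz standard conjecture for the total space and the fibres: the theorem
-/

set_option autoImplicit false

open CategoryTheory AlgebraicGeometry Finset Polynomial

universe u v

namespace Pool.Agent.J4H12.Fib

open Pool.Agent.H914 Pool.Agent.H447 Pool.Agent.W498.Dom VarClass Obj WeilCohomology

variable {k : Type u} [Field k] {𝒱 : VarClass k} {ops : CycleOps 𝒱}
  {W : WeilCohomology.{u, v} ops} {X Y F : 𝒱.Obj} {f : Y ⟶ X} {D : X.Cycles} {E : Y.Cycles}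
  {j : F ⟶ Y}

section

variable (Q : PerverseDecomposition W f D E) (hD : X.IsCyc 1 D) (hE : Y.IsCyc 1 E)
  (hν : InjY W Y) (hj : IsGeneralFibre W j f D)

include Q hD hE hν hj

lemma exists_split_fibre : ∃ s ∈ KOp W F Y 0, (∀ y, W.map j (s (W.map j y)) = W.map j y) ∧
    ∀ x, (∀ y, W.tr F (x * W.map j y) = 0) → W.map j (s x) = 0 := by
  obtain ⟨q, hq, hab, hj1⟩ := fibreCorr hj
  obtain ⟨s, hs, h1, h2⟩ := exists_split Q hD hE hν hab
  refine ⟨s, hs, fun y => h1 _ ⟨y, rfl⟩, fun x hx => h2 x ?_⟩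
  rw [LinearMap.smul_apply]
  have h3 : W.push j x = 0 := by
    apply W.nondeg
    intro c
    rw [W.tr_push]
    exact hx c
  rw [h3, smul_zero]

theorem algebraicallySplit : AlgebraicallySplit W j := by
  obtain ⟨s, hs, h1, -⟩ := exists_split_fibre Q hD hE hν hj
  exact ⟨s, hs, h1⟩

theorem projectorAlgebraic : ProjectorAlgebraic W j := by
  obtain ⟨s, hs, h1, h2⟩ := exists_split_fibre Q hD hE hν hj
  exact ⟨(W.map j).toLinearMap ∘ₗ s,
    KOp.cast (KOp.comp (Pool.Agent.W534.qop_pull (W := W) j).kop hs) (by ring), h1,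
    fun x => ⟨s x, rfl⟩, h2⟩

theorem cyclesExtend : CyclesExtend W j := by
  obtain ⟨s, hs, h1, -⟩ := exists_split_fibre Q hD hE hν hj
  intro q y hy
  refine ⟨s (W.map j y), ?_, h1 y⟩
  have := KOp.map_span hs hy
  rwa [add_zero] at this

theorem lefschetzBOnImage {E' : Y.Cycles} (hE' : Y.IsCyc 1 E')
    (hHL : HardLefschetz W F (ops.pull j E')) : LefschetzBOnImage W j (ops.pull j E') := by
  intro c hc
  obtain ⟨ν, hνk, hνr, hνi⟩ := exists_inj Q hD hE hν hj hc
  set L := LinearMap.mulLeft W.K (W.cl F (ops.pull j E')) with hL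
  have hLk : L ∈ KOp W F F 1 := Pool.Agent.W534.kop_L (ops.pull_mem j hE')
  have hLh : IsHom (W.gr F) 2 L := by
    simpa using rop_opAlg.hom (rop_mulLeft (W := W) (ops.pull_mem j hE'))
  have hLr : ∀ x ∈ LinearMap.range (W.map j).toLinearMap,
      (L ^ c) x ∈ LinearMap.range (W.map j).toLinearMap := by
    rintro _ ⟨y, rfl⟩
    refine ⟨W.cl Y E' ^ c * y, ?_⟩
    rw [hL, LinearMap.pow_mulLeft, LinearMap.mulLeft_apply, AlgHom.toLinearMap_apply,
      AlgHom.toLinearMap_apply, map_mul, map_pow, W.cl_pull]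
  obtain ⟨g, hg⟩ := exists_inv_on (E := ν ∘ₗ L ^ c)
    (S := LinearMap.range (W.map j).toLinearMap ⊓ W.gr F (F.dim - c))
    (by
      rintro x ⟨-, hx⟩
      refine ⟨hνr _, ?_⟩
      have h1 := pow_L_mem hLh hx c
      rw [show F.dim - c + 2 * c = F.dim + c by omega] at h1
      have h2 := KOp.isHom hνk (F.dim + c : ℕ) _ (by rw [grZ_natCast]; exact h1)
      rw [show ((F.dim + c : ℕ) : ℤ) + 2 * (-(c : ℤ)) = ((F.dim - c : ℕ) : ℤ) by omega,
        grZ_natCast] at h2
      exact h2)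
    (by
      rintro x ⟨hxr, hx⟩ h0
      have h1 := pow_L_mem hLh hx c
      rw [show F.dim - c + 2 * c = F.dim + c by omega] at h1
      have h2 := hνi _ (hLr x hxr) h1 h0
      apply (hHL (F.dim - c) (by omega)).1 x hx
      rw [show F.dim - (F.dim - c) = c by omega]
      exact h2)
  have hνL : ν ∘ₗ L ^ c ∈ KOp W F F 0 := KOp.cast (KOp.comp hνk (kop_pow hLk c)) (by ring)
  refine ⟨aeval (ν ∘ₗ L ^ c) g ∘ₗ ν, KOp.cast (KOp.comp (aeval_kop hνL g) hνk) (by ring),
    fun y hy => ?_⟩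
  have h1 := hg (W.map j y) ⟨⟨y, rfl⟩, hy⟩
  rw [LinearMap.comp_apply, hL, LinearMap.pow_mulLeft, LinearMap.mulLeft_apply] at h1
  rw [LinearMap.comp_apply]
  rw [hL, LinearMap.pow_mulLeft]
  exact h1

theorem lefschetzB_fibre {E' : Y.Cycles} (hE' : Y.IsCyc 1 E')
    (hHL : HardLefschetz W F (ops.pull j E'))
    (hsurj : ∀ i < F.dim, ∀ x ∈ W.gr F i, ∃ y, W.map j y = x) {D' : F.Cycles}
    (hD' : F.IsCyc 1 D') (hHL' : HardLefschetz W F D') : LefschetzB W F D' := by
  apply lefschetzB_of_inj hD' hHL'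
  intro c hc
  rcases Nat.eq_zero_or_pos c with rfl | hc0
  · exact ⟨LinearMap.id, KOp.cast (KOp.id F) (by simp), fun a _ h => h⟩
  · obtain ⟨ν, hνk, hνr, hνi⟩ := exists_inj Q hD hE hν hj hc
    refine ⟨ν, hνk, fun x hx h0 => hνi x ?_ hx h0⟩
    obtain ⟨z, hz, hzx⟩ := (hHL (F.dim - c) (by omega)).2 x (by
      rwa [show 2 * F.dim - (F.dim - c) = F.dim + c by omega])
    obtain ⟨y, rfl⟩ := hsurj _ (by omega) z hz
    refine ⟨W.cl Y E' ^ c * y, ?_⟩
    rw [← hzx, show F.dim - (F.dim - c) = c by omega, LinearMap.pow_mulLeft,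
      LinearMap.mulLeft_apply, AlgHom.toLinearMap_apply, map_mul, map_pow, W.cl_pull]

end

/-- **The Lefschetz standard conjecture for the total space of a family.** -/
theorem main (Q : PerverseDecomposition W f D E) (hD : X.IsCyc 1 D) (hE : Y.IsCyc 1 E)
    {E' : Y.Cycles} (hE' : Y.IsCyc 1 E') (hHL' : HardLefschetz W Y E') (hB : LefschetzB W Y E')
    (hj : IsGeneralFibre W j f D) :
    AlgebraicallySplit W j ∧ ProjectorAlgebraic W j ∧ CyclesExtend W j ∧
      ∀ G : Y.Cycles, Y.IsCyc 1 G → HardLefschetz W F (ops.pull j G) →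
        LefschetzBOnImage W j (ops.pull j G) ∧
          ((∀ i < F.dim, ∀ x ∈ W.gr F i, ∃ y, W.map j y = x) →
            LefschetzB W F (ops.pull j G)) := by
  have hν : InjY W Y := inj_of_lefschetzB hE' hHL' hB
  refine ⟨algebraicallySplit Q hD hE hν hj, projectorAlgebraic Q hD hE hν hj,
    cyclesExtend Q hD hE hν hj, fun G hG hHL => ⟨lefschetzBOnImage Q hD hE hν hj hG hHL,
      fun hs => lefschetzB_fibre Q hD hE hν hj hG hHL hs (ops.pull_mem j hG) hHL⟩⟩

end Pool.Agent.J4H12.Fib
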